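import Mathlib
import Pool.Agent.R490.Pt

set_option autoImplicit false

/-!
# Triples one of whose members is prime and the others almost prime: number and Poisson law

For `H = {0, 2, 6}` and `H = {0, 4, 6}`: the number of the `n` in a window for which `n + b` is a PRIME and all
`n + h` have no prime factor `≤ N ^ (1 / r)`, and the Poisson law of the almost prime triples following them.
-/

namespace Pool.Agent.Results.MP_c0d11e_nt.LawAfterPrimes

open Finset Filter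

/-- No `n + h`, `h ∈ H`, has a prime factor `≤ N ^ (1 / r)`. -/
def Rough (H : Finset ℕ) (N r n : ℕ) : Prop :=
  ∀ p : ℕ, p.Prime → (p : ℝ) ≤ (N : ℝ) ^ (1 / (r : ℝ)) → ∀ h ∈ H, ¬ p ∣ n + h

/-- The product of `1 - k / p` over the primes `5 < p ≤ N ^ (1 / r)`. -/
noncomputable def V (k N r : ℕ) : ℝ :=
  ∏ p ∈ (Ioc 5 ⌊(N : ℝ) ^ (1 / (r : ℝ))⌋₊).filter Nat.Prime, (1 - (k : ℝ) / p)

/-- `V` divided by the product of `1 - 1 / p` over the primes `p ≤ N ^ (1 / r)`. -/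
noncomputable def W (k N r : ℕ) : ℝ :=
  V k N r / ∏ p ∈ (Ioc 0 ⌊(N : ℝ) ^ (1 / (r : ℝ))⌋₊).filter Nat.Prime, (1 - 1 / (p : ℝ))

open Classical in
/-- The `n` in `(A, A + L]` with `Rough H N r n` whose member `n + b` is PRIME. -/
noncomputable def P (H : Finset ℕ) (N r b A L : ℕ) : Finset ℕ :=
  (Ioc A (A + L)).filter (fun n => (n + b).Prime ∧ Rough H N r n)

open Classical in
/-- The number of the `l` in `(n, n + 30 T]` congruent to `n` modulo 30 with `Rough H N r l`. -/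
noncomputable def Next (H : Finset ℕ) (N r T n : ℕ) : ℕ :=
  ((Ioc n (n + 30 * T)).filter (fun l => l % 30 = n % 30 ∧ Rough H N r l)).card

open Classical in
/-- **The law after primes for triples.** Let (H = {0, 2, 6} and k = 3 and g = 2) or (H = {0, 4, 6} and k = 3 and g = 2), and `θ > 0`,
`0 < δ ≤ 1`, `x₀`, `0 < ε ≤ 1`. There is `r₀` such that for all `r ≥ r₀` and all large `N`, for each member
`n + b`, `b ∈ H`, and all windows `(A, A + L]` with `A + L ≤ X`, `δ X ≤ L`, `X ≥ N ^ θ`: the number of the `n` in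
the window for which `n + b` is a PRIME and no member has a prime factor `≤ N ^ (1 / r)` is
`g (L / 30) W / log X`, up to a factor `1 + η`, `|η| ≤ ε`; and for `T V ≤ x₀` the number `Next` of the good `l ≡ n`
modulo `30` in `(n, n + 30 T]`, `n` running over this set, has the Poisson law of mean `T V`, up to `ε`. -/
theorem result (H : Finset ℕ) (k g : ℕ) (hH : (H = {0, 2, 6} ∧ k = 3 ∧ g = 2) ∨ (H = {0, 4, 6} ∧ k = 3 ∧ g = 2))
    (θ δ : ℝ) (hθ : 0 < θ) (hδ : 0 < δ) (hδ1 : δ ≤ 1) (x₀ ε : ℝ) (hε : 0 < ε) (hε1 : ε ≤ 1) :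
    ∃ r₀ : ℕ, 2 ≤ r₀ ∧ ∀ r : ℕ, r₀ ≤ r → ∀ᶠ N : ℕ in atTop, 0 < W k N r ∧
      ∀ b ∈ H, ∀ X : ℕ, (N : ℝ) ^ θ ≤ X → ∀ A L : ℕ, δ * X ≤ L → A + L ≤ X →
      |((P H N r b A L).card : ℝ) * Real.log X - (g : ℝ) * (L / ((30 : ℕ) : ℝ) * W k N r)| ≤
        ε * ((g : ℝ) * (L / ((30 : ℕ) : ℝ) * W k N r)) ∧
      ∀ T : ℕ, T * V k N r ≤ x₀ → ∀ J : Finset ℕ,
      |(((P H N r b A L).filter (fun n => Next H N r T n ∈ J)).card : ℝ) -
        (P H N r b A L).card * ∑ j ∈ J, Real.exp (-(T * V k N r)) * (T * V k N r) ^ j / j.factorial| ≤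
        ε * (P H N r b A L).card := by
  rcases hH with ⟨rfl, rfl, rfl⟩ | ⟨rfl, rfl, rfl⟩
  · exact Pool.Agent.R490.Pt.law 30 5 (fun p hp => Pool.Agent.R490.Pt.pr30 p hp) Pool.Agent.Y879.PR.ta _
      Pool.Agent.R490.Pt.mem_ta {11, 17} ⟨11, by decide⟩ Pool.Agent.Y879.PR.pat_ta θ δ hθ hδ hδ1 x₀ ε hε hε1
  · exact Pool.Agent.R490.Pt.law 30 5 (fun p hp => Pool.Agent.R490.Pt.pr30 p hp) Pool.Agent.Y879.PR.tb _
      Pool.Agent.R490.Pt.mem_tb {7, 13} ⟨7, by decide⟩ Pool.Agent.Y879.PR.pat_tb θ δ hθ hδ hδ1 x₀ ε hε hε1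

end Pool.Agent.Results.MP_c0d11e_nt.LawAfterPrimes
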