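import Mathlib
import Pool.Agent.R463.LinT

set_option autoImplicit false

/-!
# Regular points of arbitrary sets of triples in arithmetic progressions

For `H = {0, 2, 6}` and `H = {0, 4, 6}`: arbitrary sets of the `n ≡ c (mod q)` for which no `n + h`, `h ∈ H`, has
a prime factor `≤ X ^ (1 / r)`, for instance arbitrary sets of prime triples, in short intervals, uniformly in
`q ≤ X ^ A`.
-/

namespace Pool.Agent.Results.MP_c0d11e_nt.RegularPoints

open Finset Filter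
open Pool.Agent.R463.PS (Regular)

/-- for `n = q m + c` none of the `n + h`, `h ∈ H`, has a prime factor `p ≤ X ^ (1 / r)` -/
def Good (H : Finset ℕ) (q c X r m : ℕ) : Prop :=
  ∀ p : ℕ, p.Prime → (p : ℝ) ≤ (X : ℝ) ^ (1 / (r : ℝ)) → ∀ h ∈ H, ¬ p ∣ q * m + c + h

/-- `0` for the prime factors of `q`, otherwise the number of the `n` modulo `p` for which `p` divides some
`n + h`, `h ∈ H` -/
def nu (H : Finset ℕ) (q p : ℕ) : ℕ :=
  if p ∣ q then 0 else ((range p).filter (fun n : ℕ => ∃ h ∈ H, p ∣ n + h)).card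

/-- the density of the good integers: the product of `1 - nu(p) / p` over the primes `p ≤ X ^ (1 / r)` -/
noncomputable def V (H : Finset ℕ) (q X r : ℕ) : ℝ :=
  ∏ p ∈ (Icc 1 ⌊(X : ℝ) ^ (1 / (r : ℝ))⌋₊).filter Nat.Prime, (1 - (nu H q p : ℝ) / p)

lemma adm (H : Finset ℕ) (hH : H = {0, 2, 6} ∨ H = {0, 4, 6}) :
    2 ≤ H.card ∧ ∀ p : ℕ, p.Prime → ∃ n : ℕ, ∀ h ∈ H, ¬ p ∣ n + h := by
  rcases hH with rfl | rfl
  · exact ⟨by decide, Pool.Agent.R463.LT.adm_two _ 5 17 (by decide)⟩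
  · exact ⟨by decide, Pool.Agent.R463.LT.adm_two _ 7 37 (by decide)⟩

open Classical in
/-- **Regular points of arbitrary sets of almost prime triples in progressions.**

`Regular S V κ δ D Y m`: every interval `(m - s, m + t]`, `s, t ≤ Y`, with `κ (s + t) V ≥ 1` contains
between `κ (s + t) V` and `(s + t) V / κ` elements of `S`, and for all scales `1 / V ≤ 2 ^ j ≤ Y` with at
most `D` exceptions there is a density `κ ≤ lam ≤ 1 / κ` such that all intervals `(m - s, m + t]`,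
`s, t ≤ 2 ^ j`, contain `lam (s + t) V` elements of `S`, up to `δ 2 ^ j V`.

For `A` and `θ > 0` there is `r₀` such that for all `r ≥ r₀` and `ε > 0` there is `κ > 0`, and for all
`δ > 0` there is `D`, such that for all large `X` the following holds uniformly for ALL moduli
`1 ≤ q ≤ X ^ A` and residues `c ≤ X ^ A` with all `c + h`, `h ∈ H`, prime to `q`, all intervals `(u, u + Y]`
with `X ^ θ ≤ Y ≤ X`, `Y ≤ u`, and EVERY set `S` of good integers: at most `ε Y V` elements of `S` in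
`(u, u + Y]` are not regular points of `S`. -/
theorem result (H : Finset ℕ) (hH : H = {0, 2, 6} ∨ H = {0, 4, 6}) (A : ℕ) (θ : ℝ) (hθ : 0 < θ) :
    ∃ r₀ : ℕ, 2 ≤ r₀ ∧ ∀ r : ℕ, r₀ ≤ r → ∀ ε : ℝ, 0 < ε → ∃ κ : ℝ, 0 < κ ∧
      ∀ δ : ℝ, 0 < δ → ∃ D : ℕ, ∀ᶠ X : ℕ in atTop, ∀ q c : ℕ, 1 ≤ q → q ≤ X ^ A →
      c ≤ X ^ A → (∀ h ∈ H, Nat.Coprime q (c + h)) →
      ∀ u Y : ℕ, (X : ℝ) ^ θ ≤ Y → Y ≤ X → Y ≤ u →
      ∀ S : Set ℕ, (∀ m ∈ S, Good H q c X r m) →
        (((Ioc u (u + Y)).filter (fun m => m ∈ S ∧ ¬ Regular S (V H q X r) κ δ D Y m)).card : ℝ) ≤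
          ε * (Y * V H q X r) :=
  Pool.Agent.R463.LT.regH H (adm H hH).1 (adm H hH).2 A θ hθ

end Pool.Agent.Results.MP_c0d11e_nt.RegularPoints
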